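import Pool.Agent.N101.CB.TwMain

set_option autoImplicit false

/-! # The holomorphy conjecture for twisted topological zeta functions: cubic polynomials suffice

For every non-constant polynomial `f` in `n` variables we construct a cubic polynomial `F` in
`n + 2 κ` variables, of the form `q_0(x) + ∑_k t_k q_k(x)` with polynomials `q_0, q_k` of degree at most
two, all of whose monomials are squarefree (`Cub F`), such that for every `d ≥ 1` the conjecture for
`Z^(d)_F` implies the conjecture for `Z^(d)_f`. So the holomorphy conjecture holds if it holds for these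
cubic polynomials.

The hypothesis on the monodromy. By the theorem of Malgrange and Kashiwara the eigenvalues of the monodromy
of `f` are the `exp(2 π i α)`, `α` a root of the Bernstein-Sato polynomial `b_f`; the `α` are rational
numbers, and the order of `exp(2 π i α)` is the denominator of `α`. So no eigenvalue has an order
divisible by `d` if and only if no root of `b_f` has a denominator divisible by `d`, i.e. if and only if
there is a polynomial `b` with this property which satisfies a functional equation of `f` (`NoOrder`).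

Twisted zeta functions. For `c ≥ 1` let `Z_(c)(T) = ∑_{N ≥ 1} [Y_N^(c)] 𝕃 ^ (-n N) T ^ N`, where
`Y_N^(c)` is the variety of the pairs `(ψ, w)`, `ψ` an `N`-jet, `w ≠ 0`, `f(ψ) = w ^ c t ^ N mod t ^ (N + 1)`.
On an embedded resolution `Z_(c)(T) = ∑_{∅ ≠ J} [E_J^(g)] ∏_{i ∈ J} F_(N_i, ν_i)`,
`F_(N, ν) = (𝕃 - 1) 𝕃 ^ (-ν) T ^ N / (1 - 𝕃 ^ (-ν) T ^ N)`, where `g = gcd(c, m_J)` and `E_J^(g)` is an étale covering
of degree `g` of `E_J°`. The specialisation `[V] ↦ χ(V)`, `F_(N, ν) ↦ 1 / (N s + ν)` gives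
`∑_{∅ ≠ J} gcd(c, m_J) χ(E_J°) ∏ 1 / (N_i s + ν_i) = ∑_{e ∣ c} φ(e) Z^(e)(s)` (without the term of `J = ∅`).
By Möbius inversion the specialisation of `∑_{c ∣ d} μ(d / c) Z_(c)(T)` (`Mte f d`) is `φ(d) Z^(d)(s)`. This is
used as definition of `Z^(d)` (`IsTwTopZeta`; the constant `χ(E_∅°)` is irrelevant for the conjecture).

The step. Let `F = f + t w` (or its image `f + (t + v(x)) (w - u(x))` by an automorphism). For jets
`(x, t, w)` with `ord t = i ≤ N` one can change the coefficient of `t ^ N` in `F` arbitrarily by changing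
one coefficient of `w(t)`. So `[Y_N^(c)(F)] - [Y_N^(1)(F)] = 𝕃 ^ (N + 1) ([Y_N^(c)(f)] - [Y_N^(1)(f)])`,
and for `d ≥ 2` the twisted motivic zeta function of `F` is `𝕃` times the one of `f` at `𝕃⁻¹ T`: after `κ`
steps `Z^(d)_F(s) = Z^(d)_f(s + κ)`. A functional equation of `f` with `(s + 1) c(s)` gives one of `F` with
`(s + 1) c(s + κ)`, so the denominators of the roots do not change. -/

namespace Pool.Agent.Results.MP_3c7f5c_ag.CubicPolynomials

open MvPolynomial Pool.Agent.W428.MOT Pool.Agent.N101.CB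
open Pool.Agent.H628R4.TP (IsBFunction)

/-- `R` is a twisted topological zeta function `Z^(d)` of `f`, for the ring homomorphism
`χ : 𝓜 → ℂ` with `χ(𝕃) = 1`, for instance the Euler characteristic: the motivic zeta function
`Mte f d = ∑_{c ∣ d} μ(d / c) ∑_{N ≥ 1} [{(ψ, w) : w ≠ 0, f(ψ) = w ^ c t ^ N}] 𝕃 ^ (-n N) T ^ N` is a
polynomial `Q` in the `F_(N, ν) = (𝕃 - 1) 𝕃 ^ (-ν) T ^ N / (1 - 𝕃 ^ (-ν) T ^ N)`, `N, ν ≥ 1`, with coefficients in
`𝓜`, and `φ(d) R = (χ Q)(1 / (N s + ν))`. -/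
def IsTwTopZeta (χ : MK ℂ →+* ℂ) {n : ℕ} (f : MvPolynomial (Fin n) ℂ) (d : ℕ)
    (R : RatFunc ℂ) : Prop :=
  IsTop χ (Mte f d) ((Nat.totient d : RatFunc ℂ) * R)

/-- No monodromy eigenvalue of `f` has order divisible by `d`: there is a `b` with a functional equation
`b(s) f ^ s = P(s) f ^ (s + 1)` (for instance `b_f`) such that no root of `b` is a rational number whose
denominator is divisible by `d`. -/
def NoOrder (d : ℕ) {n : ℕ} (f : MvPolynomial (Fin n) ℂ) : Prop :=
  ∃ b : Polynomial ℂ, IsBFunction f b ∧ ∀ α : ℚ, b.eval (α : ℂ) = 0 → ¬ d ∣ α.den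

/-- The holomorphy conjecture for `f` and `d`. -/
def Holomorphy (χ : MK ℂ →+* ℂ) (d : ℕ) {n : ℕ} (f : MvPolynomial (Fin n) ℂ) : Prop :=
  NoOrder d f → ∀ R : RatFunc ℂ, IsTwTopZeta χ f d R →
    ∃ p : Polynomial ℂ, R = algebraMap (Polynomial ℂ) (RatFunc ℂ) p

section
variable {χ : MK ℂ →+* ℂ} {n m κ : ℕ} {f : MvPolynomial (Fin n) ℂ} {F : MvPolynomial (Fin m) ℂ}

theorem noOrder_of (hf : f.totalDegree ≠ 0) (h : TW.RT f F κ) {d : ℕ} (hd : 2 ≤ d)
    (hn : NoOrder d f) : NoOrder d F := by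
  obtain ⟨b, hb, hα⟩ := hn
  obtain ⟨h1, h2⟩ := h.rl.b hf b hb
  obtain ⟨c, hc⟩ := exists_factor' h1
  refine ⟨_, h2 c hc, fun α hz hdvd => ?_⟩
  rw [Polynomial.eval_mul, Polynomial.eval_comp] at hz
  rcases mul_eq_zero.1 hz with h3 | h3
  · rw [Polynomial.eval_add, Polynomial.eval_X, Polynomial.eval_one] at h3
    have h4 : α = -1 := by
      have h5 : α + 1 = 0 := by exact_mod_cast h3
      linarith
    rw [h4] at hdvd
    have h6 : ((-1 : ℚ)).den = 1 := rfl
    rw [h6] at hdvd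
    have := Nat.le_of_dvd one_pos hdvd
    omega
  · refine hα (α + κ) ?_ ?_
    · have h4 : (Polynomial.X + Polynomial.C (κ : ℂ)).eval (α : ℂ) = ((α + κ : ℚ) : ℂ) := by
        rw [Polynomial.eval_add, Polynomial.eval_X, Polynomial.eval_C]
        push_cast
        rfl
      rw [h4] at h3
      rw [hc, Polynomial.eval_mul, h3, mul_zero]
    · have h5 : (α + (κ : ℚ)).den = α.den := Rat.add_natCast_den α κ
      rwa [h5]

theorem holomorphy_of (hχ : χ ((Lu ℂ : (MK ℂ)ˣ) : MK ℂ) = 1) (hf : f.totalDegree ≠ 0)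
    (h : TW.RT f F κ) {d : ℕ} (hd : 1 ≤ d) (hF : Holomorphy χ d F) : Holomorphy χ d f := by
  intro hn R hR
  rcases Nat.eq_or_lt_of_le hd with rfl | hd'
  · exfalso
    obtain ⟨b, hb, hα⟩ := hn
    refine hα (-1) ?_ (one_dvd _)
    have h1 := (h.rl.b hf b hb).1
    have e : (((-1 : ℚ)) : ℂ) = -1 := by
      push_cast
      rfl
    rw [e]
    exact h1
  · obtain ⟨p, hp⟩ := hF (noOrder_of hf h hd' hn) _ (TW.isTw_shift hχ h hd' hR)
    refine ⟨p.comp (Polynomial.X + Polynomial.C (-(κ : ℂ))), ?_⟩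
    have h1 := congrArg (shR (-(κ : ℂ))) hp
    rw [shR_shR, shR_poly] at h1
    exact h1

end

/-- **Cubic polynomials suffice for the holomorphy conjecture.** Let `χ : 𝓜 → ℂ` be a ring homomorphism
with `χ(𝕃) = 1`.

First part: for every non-constant `f` in `n` variables there are `κ` and a non-constant cubic `F` with
`Cub F` in `n + 2 κ` variables, such that
(1) for all `d ≥ 2`: if `R(s)` is a twisted topological zeta function `Z^(d)` of `f` then `R(s + κ)` is
one of `F`, and if no monodromy eigenvalue of `f` has order divisible by `d` then the same holds for `F`;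
(2) for all `d ≥ 1` the holomorphy conjecture for `F` and `d` implies the one for `f` and `d`.

Second part: for every `d ≥ 1` the holomorphy conjecture holds for all non-constant polynomials, in any
number of variables, if and only if it holds for the cubic ones with `Cub f`. -/
theorem result (χ : MK ℂ →+* ℂ) (hχ : χ ((Lu ℂ : (MK ℂ)ˣ) : MK ℂ) = 1) :
    (∀ {n : ℕ} (f : MvPolynomial (Fin n) ℂ), f.totalDegree ≠ 0 →
      ∃ (κ m : ℕ) (F : MvPolynomial (Fin m) ℂ), m = n + 2 * κ ∧ Cub F ∧ F.totalDegree ≠ 0 ∧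
        (∀ d, 2 ≤ d → (∀ R : RatFunc ℂ, IsTwTopZeta χ f d R →
          IsTwTopZeta χ F d (shR (κ : ℂ) R)) ∧ (NoOrder d f → NoOrder d F)) ∧
        ∀ d, 1 ≤ d → Holomorphy χ d F → Holomorphy χ d f) ∧
    ∀ d, 1 ≤ d →
      ((∀ (n : ℕ) (f : MvPolynomial (Fin n) ℂ), f.totalDegree ≠ 0 → Holomorphy χ d f) ↔
      ∀ (n : ℕ) (f : MvPolynomial (Fin n) ℂ), Cub f → f.totalDegree ≠ 0 → Holomorphy χ d f) := by
  refine ⟨fun {n} f hf => ?_, fun d hd => ⟨fun h n f _ => h n f, fun h n f hf => ?_⟩⟩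
  · obtain ⟨κ, m, F, hm, hF, hl⟩ := TW.exists_cubic_tw f
    exact ⟨κ, m, F, hm, hF, hl.rl.deg hf,
      fun d hd => ⟨fun R hR => TW.isTw_shift hχ hl hd hR, noOrder_of hf hl hd⟩,
      fun d hd => holomorphy_of hχ hf hl hd⟩
  · obtain ⟨κ, m, F, -, hF, hl⟩ := TW.exists_cubic_tw f
    exact holomorphy_of hχ hf hl hd (h m F hF (hl.rl.deg hf))

end Pool.Agent.Results.MP_3c7f5c_ag.CubicPolynomials
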